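import Pool.Agent.W25.UN.Stm

/-! Project UN (helper25), part E5: the five equations from the uniform coloured theorem. -/

set_option autoImplicit false

namespace Pool.Agent.W959.UN

open Finset Filter Topology Pool.Agent.W25.UN

def slope : Fin 5 → ℤ := ![1, -1, 2, -2, 4]

theorem slope_inj : Function.Injective slope := by decide

theorem slope_ne : ∀ g, slope g ≠ 0 := by decide

theorem slope_abs : ∀ g, |slope g| ≤ 4 := by decide

theorem eqs : ∀ g g' : Fin 5, g < g' →
    ∃ a ∈ ({(1, 1, 2), (2, -1, 1), (2, 1, 3), (4, -1, 3), (4, 1, 5)} : Finset (ℤ × ℤ × ℤ)),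
      a.1 * slope g + a.2.1 * slope g' = 0 ∧ a.1 + a.2.1 = a.2.2 ∧ |a.1| ≤ 4 ∧ |a.2.1| ≤ 1 := by
  decide

section
variable (K : ℕ)

def cl (i : Fin (5 * K)) : Fin 5 := (finProdFinEquiv.symm i).1

def sx (i : Fin (5 * K)) : Fin K := (finProdFinEquiv.symm i).2

theorem ext_cl {i j : Fin (5 * K)} (h1 : cl K i = cl K j) (h2 : sx K i = sx K j) : i = j :=
  finProdFinEquiv.symm.injective (Prod.ext h1 h2)

open Classical in
theorem card_cl (g : Fin 5) : (univ.filter (fun i => cl K i = g)).card = K := by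
  have h : univ.filter (fun i => cl K i = g) =
      (univ : Finset (Fin K)).image (fun s => finProdFinEquiv (g, s)) := by
    ext i
    simp only [mem_filter, mem_univ, true_and, mem_image]
    constructor
    · intro h
      refine ⟨sx K i, ?_⟩
      rw [← h]
      exact finProdFinEquiv.apply_symm_apply i
    · rintro ⟨s, rfl⟩
      unfold cl
      rw [Equiv.symm_apply_apply]
  rw [h, card_image_of_injective, card_univ, Fintype.card_fin]
  intro s t hst
  have := finProdFinEquiv.injective hst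
  exact (Prod.ext_iff.1 this).2

/-- the modulus -/
def W0 : ℕ := (5 * K + 2).factorial

theorem W0_pos : 0 < W0 K := Nat.factorial_pos _

def al (i : Fin (5 * K)) : ℤ := slope (cl K i)

def hh (r : ℕ) (i : Fin (5 * K)) : ℤ :=
  (1 - al K i - r) % (W0 K : ℤ) + (W0 K : ℤ) * ((sx K i : ℕ) : ℤ)

theorem hh_nonneg (r : ℕ) (i : Fin (5 * K)) : 0 ≤ hh K r i := by
  have h0 : (0 : ℤ) < W0 K := by exact_mod_cast W0_pos K
  have h1 := Int.emod_nonneg (1 - al K i - r) h0.ne'
  unfold hh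
  positivity

theorem hh_le (r : ℕ) (i : Fin (5 * K)) : hh K r i ≤ (W0 K : ℤ) * K := by
  have h0 : (0 : ℤ) < W0 K := by exact_mod_cast W0_pos K
  have h1 := Int.emod_lt_of_pos (1 - al K i - r) h0
  have h2 : ((sx K i : ℕ) : ℤ) + 1 ≤ K := by exact_mod_cast (sx K i).2
  unfold hh
  nlinarith

theorem hh_inj (r : ℕ) (i j : Fin (5 * K)) (hij : i ≠ j) :
    ¬ (al K i = al K j ∧ hh K r i = hh K r j) := by
  rintro ⟨h1, h2⟩
  apply hij
  have h0 : (0 : ℤ) < W0 K := by exact_mod_cast W0_pos K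
  refine ext_cl K (slope_inj h1) ?_
  unfold hh at h2
  rw [h1] at h2
  have h3 : (W0 K : ℤ) * ((sx K i : ℕ) : ℤ) = (W0 K : ℤ) * ((sx K j : ℕ) : ℤ) := by linarith
  have h4 := mul_left_cancel₀ h0.ne' h3
  exact Fin.ext (by exact_mod_cast h4)

theorem adm (N r : ℕ) (hr : N % W0 K = r) (p : ℕ) (hp : p.Prime) :
    ∃ n : ℤ, ¬ (p : ℤ) ∣ n ∧ ∀ i, ¬ (p : ℤ) ∣ Fm (al K) (hh K r) N i n := by
  by_cases hpK : p ≤ 5 * K + 2
  · have hpW : (p : ℤ) ∣ W0 K := by exact_mod_cast hp.dvd_factorial.2 hpK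
    have hp1 : ¬ (p : ℤ) ∣ 1 := by
      intro h
      have : p ∣ 1 := by exact_mod_cast h
      exact hp.one_lt.ne' (Nat.dvd_one.1 this)
    refine ⟨1, hp1, fun i hi => hp1 ?_⟩
    unfold Fm hh at hi
    have h1 : (W0 K : ℤ) ∣ (N : ℤ) - r := by
      rw [← hr]
      push_cast
      exact Int.dvd_self_sub_emod
    have h2 : (W0 K : ℤ) ∣ (1 - al K i - r) - (1 - al K i - r) % (W0 K : ℤ) :=
      Int.dvd_self_sub_emod
    have h3 : (1 : ℤ) = (N + al K i * 1 + ((1 - al K i - r) % (W0 K : ℤ) +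
        (W0 K : ℤ) * ((sx K i : ℕ) : ℤ))) - ((N : ℤ) - r) +
        ((1 - al K i - r) - (1 - al K i - r) % (W0 K : ℤ)) -
        (W0 K : ℤ) * ((sx K i : ℕ) : ℤ) := by ring
    rw [h3]
    exact dvd_sub (dvd_add (dvd_sub hi (hpW.trans h1)) (hpW.trans h2)) (hpW.mul_right _)
  · haveI := Fact.mk hp
    have hal : ∀ i, ((al K i : ℤ) : ZMod p) ≠ 0 := by
      intro i h
      rw [ZMod.intCast_zmod_eq_zero_iff_dvd] at h
      have h1 : (p : ℤ) ≤ |al K i| :=
        Int.le_of_dvd (abs_pos.2 (slope_ne (cl K i))) ((dvd_abs _ _).2 h)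
      have h2 : |al K i| ≤ 4 := slope_abs (cl K i)
      have h3 := i.2
      omega
    let b : Fin (5 * K) → ZMod p := fun i => - ((N : ZMod p) + ((hh K r i : ℤ) : ZMod p)) /
      ((al K i : ℤ) : ZMod p)
    have hcard : (insert (0 : ZMod p) (univ.image b)).card < (univ : Finset (ZMod p)).card := by
      rw [card_univ, ZMod.card]
      have h1 := card_insert_le (0 : ZMod p) (univ.image b)
      have h2 : (univ.image b).card ≤ 5 * K := card_image_le.trans (by simp)
      omega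
    obtain ⟨z, _, hz⟩ := Finset.exists_mem_notMem_of_card_lt_card hcard
    have hz0 : z ≠ 0 := fun h => hz (h ▸ mem_insert_self _ _)
    have hzb : ∀ i, z ≠ b i := fun i h => hz (mem_insert_of_mem (mem_image.2 ⟨i, mem_univ _, h.symm⟩))
    refine ⟨(z.val : ℤ), ?_, ?_⟩
    · intro h
      rw [← ZMod.intCast_zmod_eq_zero_iff_dvd] at h
      push_cast at h
      rw [ZMod.natCast_zmod_val] at h
      exact hz0 h
    · intro i h
      rw [← ZMod.intCast_zmod_eq_zero_iff_dvd] at h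
      unfold Fm at h
      push_cast at h
      rw [ZMod.natCast_zmod_val] at h
      apply hzb i
      rw [eq_div_iff (hal i)]
      linear_combination h

end

theorem pos_of {z : ℤ} (h : z.toNat.Prime) : ((z.toNat : ℕ) : ℤ) = z := by
  have := h.pos
  omega

open Classical in
theorem main (h : ThmU) : FiveEq := by
  obtain ⟨K, hK2, hK⟩ := h 5 1 (by norm_num)
  refine ⟨5 * (W0 K * K), fun η hη => ?_⟩
  have h1 := fun (r : ℕ) (_ : r ∈ Finset.range (W0 K)) =>
    hK (al K) (hh K r) (cl K) (card_cl K) (fun i => slope_ne _) (hh_inj K r) (η / 2) (by positivity)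
  have h2 := (Filter.eventually_all_finset (Finset.range (W0 K))).2 h1
  have h3 : ∀ᶠ N : ℕ in atTop, (25 * (K : ℝ) ^ 2) < (N : ℝ) ^ (η / 2) :=
    ((tendsto_rpow_atTop (by positivity)).comp tendsto_natCast_atTop_atTop).eventually_gt_atTop _
  filter_upwards [h2, h3, eventually_ge_atTop (W0 K * K), eventually_ge_atTop 1]
    with N hN2 hN3 hN4 hN5
  have hN6 := hN2 (N % W0 K) (Finset.mem_range.2 (Nat.mod_lt _ (W0_pos K)))
    (adm K N (N % W0 K) rfl)
  set r := N % W0 K with hr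
  set A : Fin (5 * K) × Fin (5 * K) → Finset ℕ := fun ij => (Icc 1 N).filter (fun n : ℕ =>
    (Fm (al K) (hh K r) N ij.1 n).toNat.Prime ∧ (Fm (al K) (hh K r) N ij.2 n).toNat.Prime) with hA
  set Pr : Finset (Fin (5 * K) × Fin (5 * K)) :=
    univ.filter (fun ij => cl K ij.1 < cl K ij.2) with hPr
  have hsub : (Icc 1 N).filter (fun n : ℕ => 1 + 1 ≤ (univ.filter (fun g : Fin 5 =>
      ∃ i, cl K i = g ∧ (Fm (al K) (hh K r) N i n).toNat.Prime)).card) ⊆ Pr.biUnion A := by
    intro n hn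
    rw [mem_filter] at hn
    obtain ⟨hn1, hn2⟩ := hn
    obtain ⟨g, hg, g', hg', hgg⟩ := Finset.one_lt_card.1 hn2
    rw [mem_filter] at hg hg'
    obtain ⟨i, hi1, hi2⟩ := hg.2
    obtain ⟨j, hj1, hj2⟩ := hg'.2
    rcases lt_or_gt_of_ne hgg with hlt | hlt
    · refine mem_biUnion.2 ⟨(i, j), mem_filter.2 ⟨mem_univ _, ?_⟩, mem_filter.2 ⟨hn1, hi2, hj2⟩⟩
      simpa [hi1, hj1] using hlt
    · refine mem_biUnion.2 ⟨(j, i), mem_filter.2 ⟨mem_univ _, ?_⟩, mem_filter.2 ⟨hn1, hj2, hi2⟩⟩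
      simpa [hi1, hj1] using hlt
  have hNpos : (0 : ℝ) < N := by exact_mod_cast hN5
  have hbig : ∃ ij ∈ Pr, (N : ℝ) ^ (1 - η) ≤ ((A ij).card : ℝ) := by
    by_contra hcon
    push Not at hcon
    have e1 : (((Icc 1 N).filter (fun n : ℕ => 1 + 1 ≤ (univ.filter (fun g : Fin 5 =>
      ∃ i, cl K i = g ∧ (Fm (al K) (hh K r) N i n).toNat.Prime)).card)).card : ℝ) ≤
        ∑ ij ∈ Pr, ((A ij).card : ℝ) := by
      exact_mod_cast (card_le_card hsub).trans card_biUnion_le
    have e2 : ∑ ij ∈ Pr, ((A ij).card : ℝ) ≤ Pr.card • (N : ℝ) ^ (1 - η) :=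
      Finset.sum_le_card_nsmul _ _ _ (fun ij hij => (hcon ij hij).le)
    have e3 : Pr.card ≤ 25 * K ^ 2 := by
      refine (card_le_univ _).trans ?_
      rw [Fintype.card_prod, Fintype.card_fin]
      exact le_of_eq (by ring)
    have e4 : (Pr.card : ℝ) ≤ 25 * (K : ℝ) ^ 2 := by exact_mod_cast e3
    have e5 : (0 : ℝ) < (N : ℝ) ^ (1 - η) := Real.rpow_pos_of_pos hNpos _
    have e6 : (N : ℝ) ^ (1 - η / 2) = (N : ℝ) ^ (η / 2) * (N : ℝ) ^ (1 - η) := by
      rw [← Real.rpow_add hNpos]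
      congr 1
      ring
    rw [nsmul_eq_mul] at e2
    have e7 : (N : ℝ) ^ (1 - η / 2) ≤ 25 * (K : ℝ) ^ 2 * (N : ℝ) ^ (1 - η) :=
      hN6.trans (e1.trans (e2.trans (mul_le_mul_of_nonneg_right e4 e5.le)))
    rw [e6] at e7
    have e8 := le_of_mul_le_mul_right e7 e5
    linarith
  obtain ⟨⟨i, j⟩, hij, hbig⟩ := hbig
  have hlt : cl K i < cl K j := by
    have := (mem_filter.1 hij).2
    exact this
  obtain ⟨a, ha, ha1, ha2, ha3, ha4⟩ := eqs _ _ hlt
  refine ⟨a, ha, a.1 * hh K r i + a.2.1 * hh K r j, ?_, hbig.trans ?_⟩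
  · have b1 := hh_nonneg K r i
    have b2 := hh_nonneg K r j
    have b3 := hh_le K r i
    have b4 := hh_le K r j
    calc |a.1 * hh K r i + a.2.1 * hh K r j| ≤ |a.1 * hh K r i| + |a.2.1 * hh K r j| :=
          abs_add_le _ _
      _ = |a.1| * hh K r i + |a.2.1| * hh K r j := by
          rw [abs_mul, abs_mul, abs_of_nonneg b1, abs_of_nonneg b2]
      _ ≤ 4 * ((W0 K : ℤ) * K) + 1 * ((W0 K : ℤ) * K) := by
          gcongr
      _ = ((5 * (W0 K * K) : ℕ) : ℤ) := by push_cast; ring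
  · norm_cast
    refine Finset.card_le_card_of_injOn (fun n => (Fm (al K) (hh K r) N i n).toNat) ?_ ?_
    · intro n hn
      have hn := (mem_filter.1 (mem_coe.1 hn))
      have hn1 := Finset.mem_Icc.1 hn.1
      have hp := hn.2.1
      have hq := hn.2.2
      have hp' := pos_of hp
      have hq' := pos_of hq
      rw [mem_coe, mem_filter, Finset.mem_Icc]
      refine ⟨⟨hp.pos, ?_⟩, hp, _, hq, ?_⟩
      · have b3 := hh_le K r i
        have b5 : al K i ≤ 4 := (le_abs_self _).trans (slope_abs _)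
        have b6 : ((W0 K : ℤ) * K) ≤ N := by exact_mod_cast hN4
        have b7 : (n : ℤ) ≤ N := by exact_mod_cast hn1.2
        have b8 : al K i * (n : ℤ) ≤ 4 * N := by
          have : (0 : ℤ) ≤ n := by positivity
          nlinarith
        have b9 : (((Fm (al K) (hh K r) N i n).toNat : ℕ) : ℤ) ≤ 6 * N := by
          rw [hp']
          unfold Fm
          linarith
        exact_mod_cast b9
      · rw [hp', hq']
        unfold Fm
        rw [← ha2]
        have : al K i = slope (cl K i) := rfl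
        have h' : al K j = slope (cl K j) := rfl
        rw [this, h']
        linear_combination (n : ℤ) * ha1
    · intro n hn n' hn' hnn
      have hn := (mem_filter.1 (mem_coe.1 hn))
      have hn' := (mem_filter.1 (mem_coe.1 hn'))
      have hp := pos_of hn.2.1
      have hp' := pos_of hn'.2.1
      simp only at hnn hp hp'
      rw [hnn, hp'] at hp
      unfold Fm at hp
      have e1 : al K i * (n : ℤ) = al K i * (n' : ℤ) := by linarith
      have e2 := mul_left_cancel₀ (slope_ne (cl K i)) e1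
      exact_mod_cast e2

end Pool.Agent.W959.UN
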